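import Mathlib

/-!
NE-FIN, the choice of the scale: from the bounds at all scales to the bound with the exponent `8 / 3`.
-/

set_option autoImplicit false
set_option linter.all false

namespace Pool.Agent.Y528.NE

theorem fin_core (C0 : ℝ) (h0 : 1 ≤ C0) (n : ℕ) (hn : 1 ≤ n) (y B : ℝ) (hy : 0 ≤ y)
    (h1 : ∀ m : ℕ, 1 ≤ m → m ≤ n → C0 * (2 * y) * (m:ℝ) ^ (3 / 4 : ℝ) ≤ 1 →
      B ≤ Real.exp (C0 * (2 * y) * ((n:ℝ) ^ 2 * (m:ℝ) ^ (-(5 / 4) : ℝ))))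
    (h2 : B ≤ Real.exp (2 * y * (18 * (n:ℝ) ^ 2))) :
    B ≤ (36 * (2 * C0) ^ (8 / 3 : ℝ)) *
      Real.exp ((36 * (2 * C0) ^ (8 / 3 : ℝ)) * ((n:ℝ) ^ 2 * y ^ (8 / 3 : ℝ))) := by
  set a : ℝ := 2 * C0 with ha
  have ha2 : 2 ≤ a := by linarith
  have ha0 : 0 < a := by linarith
  have hn0 : (0:ℝ) < n := by exact_mod_cast hn
  have hn2 : (0:ℝ) ≤ (n:ℝ) ^ 2 := by positivity
  have hA1 : 1 ≤ a ^ (8 / 3 : ℝ) := Real.one_le_rpow (by linarith) (by norm_num)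
  set C : ℝ := 36 * a ^ (8 / 3 : ℝ) with hC
  have hC1 : 36 ≤ C := by linarith
  have hyp : 0 ≤ y ^ (8 / 3 : ℝ) := Real.rpow_nonneg hy _
  have hE0 : 0 ≤ C * ((n:ℝ) ^ 2 * y ^ (8 / 3 : ℝ)) := by positivity
  have hE1 : 1 ≤ Real.exp (C * ((n:ℝ) ^ 2 * y ^ (8 / 3 : ℝ))) := Real.one_le_exp hE0
  -- the last step
  have fin : ∀ x : ℝ, B ≤ Real.exp x → x ≤ C * ((n:ℝ) ^ 2 * y ^ (8 / 3 : ℝ)) →
      B ≤ C * Real.exp (C * ((n:ℝ) ^ 2 * y ^ (8 / 3 : ℝ))) := by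
    intro x hx hx2
    have h3 := Real.exp_le_exp.2 hx2
    nlinarith
  have hu : C0 * (2 * y) = a * y := by rw [ha]; ring
  rw [hu] at h1
  by_cases hA : a * y * (n:ℝ) ^ (3 / 4 : ℝ) ≤ 1
  · -- the scale `n`
    have h3 := h1 n hn le_rfl hA
    have e : (n:ℝ) ^ 2 * (n:ℝ) ^ (-(5 / 4) : ℝ) = (n:ℝ) ^ (3 / 4 : ℝ) := by
      rw [← Real.rpow_natCast, ← Real.rpow_add hn0]
      norm_num
    rw [e] at h3
    have h4 : B ≤ Real.exp 1 := h3.trans (Real.exp_le_exp.2 hA)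
    have h5 := Real.exp_one_lt_d9
    nlinarith
  · push Not at hA
    have hu0 : 0 < a * y := by
      by_contra hcon
      push Not at hcon
      have h3 : 0 ≤ (n:ℝ) ^ (3 / 4 : ℝ) := by positivity
      have h4 := mul_nonpos_of_nonpos_of_nonneg hcon h3
      linarith
    set u : ℝ := a * y with hudef
    have hu83 : u ^ (8 / 3 : ℝ) = a ^ (8 / 3 : ℝ) * y ^ (8 / 3 : ℝ) :=
      Real.mul_rpow ha0.le hy
    by_cases hB : u ≤ 1
    · -- the scale `m`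
      set R : ℝ := u ^ (-(4 / 3) : ℝ) with hR
      have hR1 : 1 ≤ R := Real.one_le_rpow_of_pos_of_le_one_of_nonpos hu0 hB (by norm_num)
      have hR0 : 0 < R := by linarith
      have hm1 : 1 ≤ ⌊R⌋₊ := Nat.le_floor (by exact_mod_cast hR1)
      have hmR : (⌊R⌋₊ : ℝ) ≤ R := Nat.floor_le hR0.le
      have hmR2 : R / 2 ≤ (⌊R⌋₊ : ℝ) := by
        have h3 := Nat.lt_floor_add_one R
        have h4 : (1:ℝ) ≤ (⌊R⌋₊ : ℝ) := by exact_mod_cast hm1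
        linarith
      have hR34 : R ^ (3 / 4 : ℝ) = u⁻¹ := by
        rw [hR, ← Real.rpow_mul hu0.le, ← Real.rpow_neg_one]
        norm_num
      have hRn : R ≤ n := by
        have h3 : u⁻¹ ≤ (n:ℝ) ^ (3 / 4 : ℝ) := by
          rw [inv_le_iff_one_le_mul₀ hu0]
          linarith
        rw [← hR34] at h3
        exact (Real.rpow_le_rpow_iff hR0.le hn0.le (by norm_num)).1 h3
      have hmn : ⌊R⌋₊ ≤ n := by
        have : (⌊R⌋₊ : ℝ) ≤ (n : ℝ) := hmR.trans hRn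
        exact_mod_cast this
      have hm34 : u * (⌊R⌋₊ : ℝ) ^ (3 / 4 : ℝ) ≤ 1 := by
        have h3 : (⌊R⌋₊ : ℝ) ^ (3 / 4 : ℝ) ≤ R ^ (3 / 4 : ℝ) :=
          Real.rpow_le_rpow (Nat.cast_nonneg _) hmR (by norm_num)
        rw [hR34] at h3
        have h4 := mul_le_mul_of_nonneg_left h3 hu0.le
        rwa [mul_inv_cancel₀ hu0.ne'] at h4
      have h3 := h1 ⌊R⌋₊ hm1 hmn hm34
      refine fin _ h3 ?_
      have h4 : (⌊R⌋₊ : ℝ) ^ (-(5 / 4) : ℝ) ≤ (R / 2) ^ (-(5 / 4) : ℝ) :=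
        Real.rpow_le_rpow_of_nonpos (by positivity) hmR2 (by norm_num)
      have h5 : (R / 2) ^ (-(5 / 4) : ℝ) ≤ 4 * u ^ (5 / 3 : ℝ) := by
        rw [Real.div_rpow hR0.le (by norm_num), hR, ← Real.rpow_mul hu0.le,
          Real.rpow_neg (by norm_num : (0:ℝ) ≤ 2), div_inv_eq_mul]
        have e1 : (-(4 / 3) : ℝ) * -(5 / 4) = 5 / 3 := by norm_num
        rw [e1]
        have e2 : (2:ℝ) ^ (5 / 4 : ℝ) ≤ 4 := by
          have : (2:ℝ) ^ (5 / 4 : ℝ) ≤ (2:ℝ) ^ (2 : ℝ) :=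
            Real.rpow_le_rpow_of_exponent_le (by norm_num) (by norm_num)
          have e3 : (2:ℝ) ^ (2 : ℝ) = 4 := by norm_num
          linarith
        have e4 : 0 ≤ u ^ (5 / 3 : ℝ) := by positivity
        nlinarith
      have e5 : u * u ^ (5 / 3 : ℝ) = u ^ (8 / 3 : ℝ) := by
        nth_rewrite 1 [← Real.rpow_one u]
        rw [← Real.rpow_add hu0]
        norm_num
      calc u * ((n:ℝ) ^ 2 * (⌊R⌋₊ : ℝ) ^ (-(5 / 4) : ℝ))
          ≤ u * ((n:ℝ) ^ 2 * (4 * u ^ (5 / 3 : ℝ))) := by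
            apply mul_le_mul_of_nonneg_left _ hu0.le
            exact mul_le_mul_of_nonneg_left (h4.trans h5) hn2
        _ = 4 * ((n:ℝ) ^ 2 * (u * u ^ (5 / 3 : ℝ))) := by ring
        _ = 4 * ((n:ℝ) ^ 2 * (a ^ (8 / 3 : ℝ) * y ^ (8 / 3 : ℝ))) := by rw [e5, hu83]
        _ = (4 * a ^ (8 / 3 : ℝ)) * ((n:ℝ) ^ 2 * y ^ (8 / 3 : ℝ)) := by ring
        _ ≤ C * ((n:ℝ) ^ 2 * y ^ (8 / 3 : ℝ)) := by
            apply mul_le_mul_of_nonneg_right _ (by positivity)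
            rw [hC]
            linarith
    · -- the trivial bound
      push Not at hB
      refine fin _ h2 ?_
      have hy0 : 0 < y := by
        by_contra hcon
        push Not at hcon
        have : y = 0 := le_antisymm hcon hy
        rw [hudef, this, mul_zero] at hu0
        exact lt_irrefl _ hu0
      have e5 : y * u ^ (5 / 3 : ℝ) = a ^ (5 / 3 : ℝ) * y ^ (8 / 3 : ℝ) := by
        rw [hudef, Real.mul_rpow ha0.le hy]
        have : y * y ^ (5 / 3 : ℝ) = y ^ (8 / 3 : ℝ) := by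
          nth_rewrite 1 [← Real.rpow_one y]
          rw [← Real.rpow_add hy0]
          norm_num
        rw [← this]
        ring
      have h3 : 1 ≤ u ^ (5 / 3 : ℝ) := Real.one_le_rpow hB.le (by norm_num)
      have h4 : a ^ (5 / 3 : ℝ) ≤ a ^ (8 / 3 : ℝ) :=
        Real.rpow_le_rpow_of_exponent_le (by linarith) (by norm_num)
      have h5 : y ≤ a ^ (8 / 3 : ℝ) * y ^ (8 / 3 : ℝ) := by
        calc y ≤ y * u ^ (5 / 3 : ℝ) := le_mul_of_one_le_right hy h3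
          _ = a ^ (5 / 3 : ℝ) * y ^ (8 / 3 : ℝ) := e5
          _ ≤ _ := mul_le_mul_of_nonneg_right h4 hyp
      calc 2 * y * (18 * (n:ℝ) ^ 2) = 36 * (n:ℝ) ^ 2 * y := by ring
        _ ≤ 36 * (n:ℝ) ^ 2 * (a ^ (8 / 3 : ℝ) * y ^ (8 / 3 : ℝ)) :=
            mul_le_mul_of_nonneg_left h5 (by positivity)
        _ = _ := by rw [hC]; ring

/-- the sum over all subsets -/
theorem sum_le {E : Type} [DecidableEq E] (V : Finset E) (y : ℝ) (hy : 0 ≤ y) (P : Finset E → ℝ)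
    (hP : ∀ S, P S ≤ 1) (N : ℝ) (hN : (V.card : ℝ) ≤ N) :
    ∑ S ∈ V.powerset, (2 * y) ^ S.card * P S ≤ Real.exp (2 * y * N) := by
  have h1 : ∑ S ∈ V.powerset, (2 * y) ^ S.card * P S ≤ (2 * y + 1) ^ V.card := by
    rw [← Finset.sum_pow_mul_eq_add_pow]
    refine Finset.sum_le_sum fun S _ => ?_
    rw [one_pow]
    exact mul_le_mul_of_nonneg_left (hP S) (by positivity)
  refine h1.trans ?_
  have h2 : (2 * y + 1) ^ V.card ≤ (Real.exp (2 * y)) ^ V.card :=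
    pow_le_pow_left₀ (by positivity) (Real.add_one_le_exp _) _
  refine h2.trans ?_
  rw [← Real.exp_nat_mul]
  apply Real.exp_le_exp.2
  nlinarith

end Pool.Agent.Y528.NE
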