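import Pool.Agent.Y554.NE.Stm
import Pool.Agent.Y528.NE.FinA

/-!
NE-FIN: the bound of the crossing probability at all complex parameters.
-/

set_option autoImplicit false
set_option linter.all false

namespace Pool.Agent.Y528.NE

open H974 H12S H985T H389NS Finset Pool.Agent.Y554.DP Pool.Agent.Y554.SN Pool.Agent.Y554.NE

/-- NE-FIN -/
theorem fin (ht : S_TAY) (hp : S_POLY) : S_FIN := by
  obtain ⟨C0, h0, hp⟩ := hp
  have hC : (1:ℝ) ≤ 36 * (2 * C0) ^ (8 / 3 : ℝ) := by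
    have h := Real.one_le_rpow (x := 2 * C0) (z := 8 / 3) (by linarith) (by norm_num)
    linarith
  refine ⟨36 * (2 * C0) ^ (8 / 3 : ℝ), hC, ?_⟩
  intro n z hn
  have hle : ∀ S : Finset Edg, PQ (1 / 2) (boxE n) (Qe n S) ≤ 1 := fun S =>
    H974.Pr_le_one (fun e => ⟨by norm_num, by norm_num⟩) _ _
  refine (ht n z).trans ?_
  apply fin_core C0 h0 n hn ‖z‖ _ (norm_nonneg z)
  · intro m h1 h2 h3
    exact hp n m (2 * ‖z‖) h1 h2 (by positivity) h3
  · have hc : (((boxE n).card : ℕ) : ℝ) ≤ 18 * (n:ℝ) ^ 2 := by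
      exact_mod_cast H389NS.card_boxE_le (le_refl n) hn
    exact sum_le (boxE n) ‖z‖ (norm_nonneg z) (fun S => PQ (1 / 2) (boxE n) (Qe n S)) hle _ hc

end Pool.Agent.Y528.NE
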